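import Mathlib

/-! Sums of sixth powers of moduli of linear forms: the number of terms can be bounded, and limits
of such sums are such sums. -/

set_option autoImplicit false

open Filter Topology
open scoped ComplexConjugate

namespace Pool.Agent.K9h27.S6

/-- the space of coefficients -/
abbrev VV := Fin 4 → Fin 4 → ℂ

/-- the coefficients of `|α x + β y|^6` -/
noncomputable def vv (p : ℂ × ℂ) : VV := fun a b =>
  (p.1 ^ (3 - (a : ℕ)) * p.2 ^ (a : ℕ)) * conj (p.1 ^ (3 - (b : ℕ)) * p.2 ^ (b : ℕ))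

/-- the functional -/
noncomputable def ff (α β : ℂ) (v : VV) : ℝ :=
  (∑ a : Fin 4, ∑ b : Fin 4, ((Nat.choose 3 a : ℂ) * (α ^ (3 - (a : ℕ)) * β ^ (a : ℕ)) *
    conj ((Nat.choose 3 b : ℂ) * (α ^ (3 - (b : ℕ)) * β ^ (b : ℕ)))) * v a b).re

theorem ff_vv (α β : ℂ) (p : ℂ × ℂ) : ff α β (vv p) = ‖α * p.1 + β * p.2‖ ^ 6 := by
  have h1 : ∀ w : ℂ, ‖w‖ ^ 6 = (w ^ 3 * conj (w ^ 3)).re := by
    intro w
    rw [Complex.mul_conj', norm_pow]
    norm_cast
    ring
  rw [h1]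
  unfold ff vv
  congr 1
  simp only [Fin.sum_univ_four, map_mul, map_pow, map_natCast]
  have e0 : ((0 : Fin 4) : ℕ) = 0 := rfl
  have e1 : ((1 : Fin 4) : ℕ) = 1 := rfl
  have e2 : ((2 : Fin 4) : ℕ) = 2 := rfl
  have e3 : ((3 : Fin 4) : ℕ) = 3 := rfl
  simp only [e0, e1, e2, e3]
  have c0 : Nat.choose 3 0 = 1 := rfl
  have c1 : Nat.choose 3 1 = 3 := rfl
  have c2 : Nat.choose 3 2 = 3 := rfl
  have c3 : Nat.choose 3 3 = 1 := rfl
  simp only [c0, c1, c2, c3, map_add, map_mul]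
  push_cast
  norm_num
  ring_nf

theorem ff_sum (α β : ℂ) {ι : Type*} (s : Finset ι) (v : ι → VV) :
    ff α β (∑ i ∈ s, v i) = ∑ i ∈ s, ff α β (v i) := by
  classical
  have hadd : ∀ u w : VV, ff α β (u + w) = ff α β u + ff α β w := by
    intro u w
    unfold ff
    rw [← Complex.add_re, ← Finset.sum_add_distrib]
    congr 1
    refine Finset.sum_congr rfl fun a _ => ?_
    rw [← Finset.sum_add_distrib]
    refine Finset.sum_congr rfl fun b _ => ?_
    rw [Pi.add_apply, Pi.add_apply, mul_add]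
  have h0 : ff α β 0 = 0 := by
    unfold ff
    simp
  induction s using Finset.induction_on with
  | empty => simp [h0]
  | insert a s ha ih => rw [Finset.sum_insert ha, Finset.sum_insert ha, hadd, ih]

theorem vv_smul (t : ℝ) (p : ℂ × ℂ) : vv ((t : ℂ) * p.1, (t : ℂ) * p.2) = (t ^ 6) • vv p := by
  funext a b
  unfold vv
  rw [Pi.smul_apply, Pi.smul_apply]
  simp only [map_mul, map_pow, Complex.conj_ofReal, Complex.real_smul]
  fin_cases a <;> fin_cases b <;> (push_cast; simp; try ring)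

theorem cara : ∃ D : ℕ, ∀ (N : ℕ) (x y : Fin N → ℂ), ∃ p : Fin D → ℂ × ℂ,
    ∀ α β : ℂ, ∑ k, ‖α * x k + β * y k‖ ^ 6 = ∑ k, ‖α * (p k).1 + β * (p k).2‖ ^ 6 := by
  classical
  refine ⟨Module.finrank ℝ VV + 1, fun N x y => ?_⟩
  set D := Module.finrank ℝ VV + 1 with hD
  rcases Nat.eq_zero_or_pos N with rfl | hN
  · exact ⟨fun _ => 0, fun α β => by simp⟩
  have hN' : (0 : ℝ) < N := by exact_mod_cast hN
  set v' : VV := ∑ k : Fin N, ((N : ℝ)⁻¹) • vv (x k, y k) with hv'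
  have hmem : v' ∈ convexHull ℝ (Set.range vv) := by
    refine (convex_convexHull ℝ _).sum_mem (fun _ _ => by positivity) ?_
      (fun k _ => subset_convexHull ℝ _ ⟨_, rfl⟩)
    rw [Finset.sum_const, Finset.card_univ, Fintype.card_fin, nsmul_eq_mul]
    exact mul_inv_cancel₀ hN'.ne'
  obtain ⟨ι, hι, z, w, hz, haff, hw, -, hsum⟩ := eq_pos_convex_span_of_mem_convexHull hmem
  have hcard : Fintype.card ι ≤ D := by
    have h := haff.card_le_finrank_succ
    refine h.trans ?_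
    have := Submodule.finrank_le (vectorSpan ℝ (Set.range z))
    exact Nat.succ_le_succ this
  choose q hq using fun i => hz ⟨i, rfl⟩
  set t : ι → ℝ := fun i => (N * w i) ^ (1 / 6 : ℝ) with ht
  have ht6 : ∀ i, t i ^ 6 = N * w i := by
    intro i
    rw [ht]
    have h0 : (0 : ℝ) ≤ N * w i := mul_nonneg hN'.le (hw i).le
    simp only
    rw [← Real.rpow_natCast, ← Real.rpow_mul h0]
    norm_num
  set q' : ι → ℂ × ℂ := fun i => ((t i : ℂ) * (q i).1, (t i : ℂ) * (q i).2) with hq'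
  -- the sum over ι
  have hkey : ∀ α β : ℂ, ∑ k, ‖α * x k + β * y k‖ ^ 6 =
      ∑ i, ‖α * (q' i).1 + β * (q' i).2‖ ^ 6 := by
    intro α β
    have e1 : ∑ k : Fin N, vv (x k, y k) = ∑ i, vv (q' i) := by
      have e2 : ∑ k : Fin N, vv (x k, y k) = (N : ℝ) • v' := by
        rw [hv', ← Finset.smul_sum, smul_smul, mul_inv_cancel₀ hN'.ne', one_smul]
      rw [e2, ← hsum, Finset.smul_sum]
      refine Finset.sum_congr rfl fun i _ => ?_
      rw [hq']
      simp only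
      rw [vv_smul, ht6, hq, smul_smul]
    have e3 := congrArg (ff α β) e1
    rw [ff_sum, ff_sum] at e3
    simp only [ff_vv] at e3
    exact e3
  -- reindex
  set e := Fintype.equivFin ι with he
  set m := Fintype.card ι with hm
  refine ⟨fun k => if h : (k : ℕ) < m then q' (e.symm ⟨k, h⟩) else 0, fun α β => ?_⟩
  rw [hkey α β]
  have h1 : ∑ i, ‖α * (q' i).1 + β * (q' i).2‖ ^ 6 =
      ∑ k : Fin m, ‖α * (q' (e.symm k)).1 + β * (q' (e.symm k)).2‖ ^ 6 :=
    (Equiv.sum_comp e.symm fun i => ‖α * (q' i).1 + β * (q' i).2‖ ^ 6).symm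
  rw [h1]
  set g : ℕ → ℝ := fun k => if h : k < m then
    ‖α * (q' (e.symm ⟨k, h⟩)).1 + β * (q' (e.symm ⟨k, h⟩)).2‖ ^ 6 else 0 with hg
  have h2 : ∑ k : Fin m, ‖α * (q' (e.symm k)).1 + β * (q' (e.symm k)).2‖ ^ 6 =
      ∑ k ∈ Finset.range m, g k := by
    rw [Finset.sum_range]
    refine Finset.sum_congr rfl fun k _ => ?_
    rw [hg]
    simp only
    rw [dif_pos k.2]
  have h3 : ∑ k : Fin D, ‖α * ((fun k : Fin D => if h : (k : ℕ) < m then
      q' (e.symm ⟨k, h⟩) else 0) k).1 + β * ((fun k : Fin D => if h : (k : ℕ) < m then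
      q' (e.symm ⟨k, h⟩) else 0) k).2‖ ^ 6 = ∑ k ∈ Finset.range D, g k := by
    rw [Finset.sum_range]
    refine Finset.sum_congr rfl fun k _ => ?_
    rw [hg]
    simp only
    by_cases h : (k : ℕ) < m
    · rw [dif_pos h, dif_pos h]
    · rw [dif_neg h, dif_neg h]
      simp
  rw [h2, h3]
  refine Finset.sum_subset (Finset.range_mono hcard) fun k _ hk => ?_
  rw [hg]
  simp only
  rw [dif_neg]
  simpa using hk

theorem limit (N : ℕ → ℂ → ℂ → ℝ) (C : ℝ)
    (h : ∀ n, ∃ (m : ℕ) (x y : Fin m → ℂ), ∀ α β : ℂ,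
      N n α β = ∑ k, ‖α * x k + β * y k‖ ^ 6)
    (hC : ∀ n, N n 1 0 ≤ C ∧ N n 0 1 ≤ C) :
    ∃ (m : ℕ) (x y : Fin m → ℂ), ∃ φ : ℕ → ℕ, StrictMono φ ∧
      ∀ α β : ℂ, Tendsto (fun n => N (φ n) α β) atTop (𝓝 (∑ k, ‖α * x k + β * y k‖ ^ 6)) := by
  obtain ⟨D, hD⟩ := cara
  have h2 : ∀ n, ∃ p : Fin D → ℂ × ℂ, ∀ α β : ℂ,
      N n α β = ∑ k, ‖α * (p k).1 + β * (p k).2‖ ^ 6 := by
    intro n
    obtain ⟨m, x, y, hxy⟩ := h n
    obtain ⟨p, hp⟩ := hD m x y
    exact ⟨p, fun α β => (hxy α β).trans (hp α β)⟩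
  choose p hp using h2
  have hb1 : ∀ r : ℝ, 0 ≤ r → r ^ 6 ≤ C → r ≤ 1 + |C| := by
    intro r hr h
    by_contra hcon
    push Not at hcon
    have h1 : 1 ≤ r := by linarith [abs_nonneg C]
    have h2 : r ≤ r ^ 6 := le_self_pow₀ h1 (by norm_num)
    linarith [le_abs_self C]
  have hbd : ∀ n, p n ∈ Metric.closedBall (0 : Fin D → ℂ × ℂ) (1 + |C|) := by
    intro n
    rw [mem_closedBall_zero_iff, pi_norm_le_iff_of_nonneg (by positivity)]
    intro k
    rw [Prod.norm_def, sup_le_iff]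
    constructor
    · refine hb1 _ (norm_nonneg _) ?_
      refine le_trans ?_ (hC n).1
      rw [hp n 1 0]
      refine le_trans (le_of_eq ?_) (Finset.single_le_sum
        (f := fun k => ‖(1 : ℂ) * (p n k).1 + 0 * (p n k).2‖ ^ 6)
        (fun _ _ => by positivity) (Finset.mem_univ k))
      simp
    · refine hb1 _ (norm_nonneg _) ?_
      refine le_trans ?_ (hC n).2
      rw [hp n 0 1]
      refine le_trans (le_of_eq ?_) (Finset.single_le_sum
        (f := fun k => ‖(0 : ℂ) * (p n k).1 + 1 * (p n k).2‖ ^ 6)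
        (fun _ _ => by positivity) (Finset.mem_univ k))
      simp
  obtain ⟨a, -, φ, hφ, hlim⟩ := (isCompact_closedBall (0 : Fin D → ℂ × ℂ) (1 + |C|)).tendsto_subseq
    hbd
  refine ⟨D, fun k => (a k).1, fun k => (a k).2, φ, hφ, fun α β => ?_⟩
  simp only [hp]
  refine tendsto_finsetSum _ fun k _ => ?_
  have h1 : Tendsto (fun n => p (φ n) k) atTop (𝓝 (a k)) := (tendsto_pi_nhds.1 hlim) k
  have h3 : Continuous fun q : ℂ × ℂ => ‖α * q.1 + β * q.2‖ ^ 6 := by fun_prop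
  exact (h3.tendsto (a k)).comp h1

end Pool.Agent.K9h27.S6
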