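import Pool.Agent.K9h27.S6.Up

/-! `tr |M|^6` is the limit over the corners. -/

set_option autoImplicit false

open MeasureTheory Matrix Filter Topology

namespace Pool.Agent.K9h27.S6

open Pool.Agent.R260.SC (corner)

variable {H : Type*} [NormedAddCommGroup H] [InnerProductSpace ℂ H] [CompleteSpace H]

/-- the projection to the span of the first vectors -/
noncomputable def Pn (b : HilbertBasis ℕ ℂ H) (n : ℕ) (x : H) : H :=
  ∑ k : Fin n, (inner ℂ (b (k : ℕ)) x : ℂ) • b (k : ℕ)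

omit [CompleteSpace H] in
theorem Pn_eq (b : HilbertBasis ℕ ℂ H) (n : ℕ) (x : H) :
    Pn b n x = Jv b n fun k => inner ℂ (b (k : ℕ)) x := rfl

theorem Pn_norm (b : HilbertBasis ℕ ℂ H) (n : ℕ) (x : H) : ‖Pn b n x‖ ≤ ‖x‖ := by
  have hb : Orthonormal ℂ (fun k : Fin n => b (k : ℕ)) :=
    b.orthonormal.comp (fun k : Fin n => (k : ℕ)) Fin.val_injective
  have h1 := Jv_norm b n fun k => inner ℂ (b (k : ℕ)) x
  rw [← Pn_eq, inner_self_eq_norm_sq_to_K] at h1
  have h2 : ((‖Pn b n x‖ ^ 2 : ℝ) : ℂ) =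
      ((∑ k : Fin n, ‖(inner ℂ (b (k : ℕ)) x : ℂ)‖ ^ 2 : ℝ) : ℂ) := by
    rw [Complex.ofReal_pow]
    refine Eq.trans h1 ?_
    rw [Complex.ofReal_sum]
    refine Finset.sum_congr rfl fun k _ => ?_
    rw [Complex.star_def, Complex.conj_mul']
    norm_cast
  have h3 : ‖Pn b n x‖ ^ 2 = ∑ k : Fin n, ‖(inner ℂ (b (k : ℕ)) x : ℂ)‖ ^ 2 := by
    exact_mod_cast h2
  have h4 := hb.sum_inner_products_le x (s := Finset.univ)
  rw [← h3] at h4
  exact le_of_sq_le_sq h4 (norm_nonneg _)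
where
  le_of_sq_le_sq {a b : ℝ} (h : a ^ 2 ≤ b ^ 2) (hb : 0 ≤ b) : a ≤ b := by
    exact le_of_pow_le_pow_left₀ two_ne_zero hb h

theorem Pn_sub (b : HilbertBasis ℕ ℂ H) (n : ℕ) (x y : H) :
    Pn b n (x - y) = Pn b n x - Pn b n y := by
  unfold Pn
  rw [← Finset.sum_sub_distrib]
  refine Finset.sum_congr rfl fun k _ => ?_
  rw [inner_sub_right, sub_smul]

theorem Pn_tendsto (b : HilbertBasis ℕ ℂ H) {x : ℕ → H} {y : H} (h : Tendsto x atTop (𝓝 y)) :
    Tendsto (fun n => Pn b n (x n)) atTop (𝓝 y) := by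
  have h1 : Tendsto (fun n => Pn b n y) atTop (𝓝 y) := by
    have h2 := (b.hasSum_repr y).tendsto_sum_nat
    refine h2.congr fun n => ?_
    unfold Pn
    rw [Finset.sum_range]
    refine Finset.sum_congr rfl fun k _ => ?_
    rw [HilbertBasis.repr_apply_apply]
  have h3 : Tendsto (fun n => Pn b n (x n - y)) atTop (𝓝 0) := by
    rw [tendsto_iff_norm_sub_tendsto_zero] at h
    refine squeeze_zero_norm (fun n => Pn_norm b n _) h
  have h4 := h3.add h1
  rw [zero_add] at h4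
  refine h4.congr fun n => ?_
  rw [Pn_sub]
  abel

theorem corner_mulVec (b : HilbertBasis ℕ ℂ H) (M : H →L[ℂ] H) (n : ℕ) (w : Fin n → ℂ) :
    Jv b n (corner b M n *ᵥ w) = Pn b n (M (Jv b n w)) := by
  rw [Pn_eq]
  congr 1
  funext k
  unfold Jv
  rw [map_sum, inner_sum, Matrix.mulVec, dotProduct]
  refine Finset.sum_congr rfl fun i _ => ?_
  rw [map_smul, inner_smul_right]
  unfold corner
  ring

theorem corner_adj (b : HilbertBasis ℕ ℂ H) (M : H →L[ℂ] H) (n : ℕ) :
    (corner b M n)ᴴ = corner b (ContinuousLinearMap.adjoint M) n := by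
  ext i j
  rw [Matrix.conjTranspose_apply]
  unfold corner
  rw [ContinuousLinearMap.adjoint_inner_right, ← inner_conj_symm]
  exact star_star _

/-- the entries of `C Cᴴ C` -/
theorem ccc (b : HilbertBasis ℕ ℂ H) (M : H →L[ℂ] H) (n : ℕ) (k i : Fin n) :
    (corner b M n * (corner b M n)ᴴ * corner b M n) k i =
      inner ℂ (b (k : ℕ)) (M (Pn b n ((ContinuousLinearMap.adjoint M)
        (Pn b n (M (b (i : ℕ))))))) := by
  classical
  have hJ : Jv b n (Pi.single i 1) = b (i : ℕ) := by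
    unfold Jv
    rw [Finset.sum_eq_single i]
    · simp
    · intro j _ hj
      rw [Pi.single_eq_of_ne hj, zero_smul]
    · intro h
      exact absurd (Finset.mem_univ _) h
  have h1 : (corner b M n * (corner b M n)ᴴ * corner b M n) k i =
      (corner b M n *ᵥ ((corner b M n)ᴴ *ᵥ (corner b M n *ᵥ Pi.single i 1))) k := by
    rw [Matrix.mulVec_mulVec, Matrix.mulVec_mulVec, Matrix.mulVec_single_one]
    rfl
  have hCv : ∀ w : Fin n → ℂ, ∀ k, (corner b M n *ᵥ w) k =
      inner ℂ (b (k : ℕ)) (M (Jv b n w)) := by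
    intro w k
    unfold Jv
    rw [map_sum, inner_sum, Matrix.mulVec, dotProduct]
    refine Finset.sum_congr rfl fun i _ => ?_
    rw [map_smul, inner_smul_right]
    unfold corner
    ring
  rw [h1, hCv, corner_adj, corner_mulVec, corner_mulVec, hJ]

/-- the trace -/
noncomputable def T6 (b : HilbertBasis ℕ ℂ H) (M : H →L[ℂ] H) (n : ℕ) : ℝ :=
  ((((corner b M n)ᴴ * corner b M n) ^ 3).trace).re

theorem T6_eq (b : HilbertBasis ℕ ℂ H) (M : H →L[ℂ] H) (n : ℕ) :
    T6 b M n = ∑ i ∈ Finset.range n, ∑ k ∈ Finset.range n,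
      ‖(inner ℂ (b k) (M (Pn b n ((ContinuousLinearMap.adjoint M)
        (Pn b n (M (b i)))))) : ℂ)‖ ^ 2 := by
  unfold T6
  have h1 : ((corner b M n)ᴴ * corner b M n) ^ 3 =
      (corner b M n * (corner b M n)ᴴ * corner b M n)ᴴ *
        (corner b M n * (corner b M n)ᴴ * corner b M n) := by
    rw [Matrix.conjTranspose_mul, Matrix.conjTranspose_mul, Matrix.conjTranspose_conjTranspose]
    simp only [pow_succ, pow_zero, one_mul, Matrix.mul_assoc]
  rw [h1, Finset.sum_range, Matrix.trace, Complex.re_sum]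
  refine Finset.sum_congr rfl fun i _ => ?_
  rw [Finset.sum_range, Matrix.diag_apply, Matrix.mul_apply, Complex.re_sum]
  refine Finset.sum_congr rfl fun k _ => ?_
  rw [Matrix.conjTranspose_apply, ccc, Complex.star_def, Complex.conj_mul']
  norm_cast

theorem hasSum_of_tendsto (b : HilbertBasis ℕ ℂ H) (M : H →L[ℂ] H) {φ : ℕ → ℕ}
    (hφ : StrictMono φ) {L : ℝ} (hL : Tendsto (fun n => T6 b M (φ n)) atTop (𝓝 L)) :
    HasSum (fun i => ‖M ((ContinuousLinearMap.adjoint M) (M (b i)))‖ ^ 2) L := by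
  classical
  have hZ : ∀ i : ℕ, Tendsto (fun n => M (Pn b n ((ContinuousLinearMap.adjoint M)
        (Pn b n (M (b i)))))) atTop (𝓝 (M ((ContinuousLinearMap.adjoint M) (M (b i))))) := by
    intro i
    have h1 : Tendsto (fun n => Pn b n (M (b i))) atTop (𝓝 (M (b i))) :=
      Pn_tendsto b tendsto_const_nhds
    have h2 := Pn_tendsto b (((ContinuousLinearMap.adjoint M).continuous.tendsto _).comp h1)
    exact (M.continuous.tendsto _).comp h2
  have hZ2 : ∀ i k : ℕ, Tendsto (fun n => ‖(inner ℂ (b k) (M (Pn b n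
      ((ContinuousLinearMap.adjoint M) (Pn b n (M (b i)))))) : ℂ)‖ ^ 2) atTop
      (𝓝 (‖(inner ℂ (b k) (M ((ContinuousLinearMap.adjoint M) (M (b i)))) : ℂ)‖ ^ 2)) := by
    intro i k
    exact ((tendsto_const_nhds.inner (hZ i)).norm).pow 2
  have hst : ∀ s t : ℕ, ∑ i ∈ Finset.range s, ∑ k ∈ Finset.range t,
      ‖(inner ℂ (b k) (M ((ContinuousLinearMap.adjoint M) (M (b i)))) : ℂ)‖ ^ 2 ≤ L := by
    intro s t
    have h1 : Tendsto (fun n => ∑ i ∈ Finset.range s, ∑ k ∈ Finset.range t,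
        ‖(inner ℂ (b k) (M (Pn b (φ n) ((ContinuousLinearMap.adjoint M)
          (Pn b (φ n) (M (b i)))))) : ℂ)‖ ^ 2) atTop
        (𝓝 (∑ i ∈ Finset.range s, ∑ k ∈ Finset.range t,
          ‖(inner ℂ (b k) (M ((ContinuousLinearMap.adjoint M) (M (b i)))) : ℂ)‖ ^ 2)) :=
      tendsto_finsetSum _ fun i _ => tendsto_finsetSum _ fun k _ =>
        (hZ2 i k).comp hφ.tendsto_atTop
    refine le_of_tendsto_of_tendsto h1 hL ?_
    filter_upwards [eventually_ge_atTop (s + t)] with n hn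
    have hn' : s + t ≤ φ n := hn.trans (hφ.id_le n)
    rw [T6_eq]
    refine (Finset.sum_le_sum_of_subset_of_nonneg (Finset.range_mono (by omega : s ≤ φ n))
      fun i _ _ => Finset.sum_nonneg fun k _ => by positivity).trans ?_
    refine Finset.sum_le_sum fun i _ => ?_
    exact Finset.sum_le_sum_of_subset_of_nonneg (Finset.range_mono (by omega : t ≤ φ n))
      fun k _ _ => by positivity
  have hpars : ∀ x : H, HasSum (fun k => ‖(inner ℂ (b k) x : ℂ)‖ ^ 2) (‖x‖ ^ 2) := by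
    intro x
    have h1 := b.hasSum_inner_mul_inner x x
    have h2 : ∀ j, inner ℂ x (b j) * inner ℂ (b j) x =
        ((‖(inner ℂ (b j) x : ℂ)‖ ^ 2 : ℝ) : ℂ) := by
      intro j
      rw [← inner_conj_symm x (b j), Complex.conj_mul']
      norm_cast
    simp only [h2] at h1
    have h3 : inner ℂ x x = ((‖x‖ ^ 2 : ℝ) : ℂ) := by
      rw [inner_self_eq_norm_sq_to_K]
      norm_cast
    rw [h3] at h1
    exact_mod_cast h1
  have hs : ∀ s : ℕ, ∑ i ∈ Finset.range s,
      ‖M ((ContinuousLinearMap.adjoint M) (M (b i)))‖ ^ 2 ≤ L := by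
    intro s
    have h1 : Tendsto (fun t => ∑ i ∈ Finset.range s, ∑ k ∈ Finset.range t,
        ‖(inner ℂ (b k) (M ((ContinuousLinearMap.adjoint M) (M (b i)))) : ℂ)‖ ^ 2) atTop
        (𝓝 (∑ i ∈ Finset.range s, ‖M ((ContinuousLinearMap.adjoint M) (M (b i)))‖ ^ 2)) :=
      tendsto_finsetSum _ fun i _ => (hpars _).tendsto_sum_nat
    exact le_of_tendsto' h1 fun t => hst s t
  have hsum : Summable (fun i => ‖M ((ContinuousLinearMap.adjoint M) (M (b i)))‖ ^ 2) :=
    summable_of_sum_range_le (fun i => by positivity) hs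
  have hle : ∑' i, ‖M ((ContinuousLinearMap.adjoint M) (M (b i)))‖ ^ 2 ≤ L :=
    Real.tsum_le_of_sum_range_le (fun i => by positivity) hs
  have hge : L ≤ ∑' i, ‖M ((ContinuousLinearMap.adjoint M) (M (b i)))‖ ^ 2 := by
    refine le_of_tendsto' hL fun n => ?_
    refine (iu6 b M (φ n)).trans ?_
    exact hsum.sum_le_tsum _ fun i _ => by positivity
  have := hsum.hasSum
  rwa [le_antisymm hle hge] at this

end Pool.Agent.K9h27.S6
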