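import Pool.Agent.K9h27.S6.Yes
import Pool.Agent.K9h78.S6.Fin
import Pool.Agent.K9h78.S6.OpA
import Pool.Agent.Results.MP_41c25d_an.ExponentFour

/-! The exponents 4 and 6: all pairs of operators in `S_p` embed into complex `L_p(0,1)`. -/

set_option autoImplicit false

open MeasureTheory ContinuousLinearMap

namespace Pool.Agent.K9h27.S6

open Pool.Agent.K9h78.S6 (HasTr hasTr_four hasTr_six fin6)

variable {H : Type*} [NormedAddCommGroup H] [InnerProductSpace ℂ H] [CompleteSpace H]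

theorem pos6 (b : HilbertBasis ℕ ℂ H) (A B : H →L[ℂ] H) (hA : ∃ t, HasTr b 6 A t)
    (hB : ∃ t, HasTr b 6 B t) :
    ∃ f g : ℝ → ℂ, MemLp f 6 (volume.restrict (Set.Ioo (0:ℝ) 1)) ∧
      MemLp g 6 (volume.restrict (Set.Ioo (0:ℝ) 1)) ∧
      ∀ α β : ℂ, HasTr b 6 (α • A + β • B)
        (∫ t in Set.Ioo (0:ℝ) 1, ‖α * f t + β * g t‖ ^ (6:ℝ)) := by
  obtain ⟨t, hA⟩ := hA
  obtain ⟨s, hB⟩ := hB
  rw [hasTr_six, hasTrSix_iff] at hA hB
  obtain ⟨f, g, hf, hg, h⟩ := six_yes fin6 b A B hA.summable hB.summable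
  exact ⟨f, g, hf, hg, fun α β => (hasTr_six b _ _).2 ((hasTrSix_iff b _ _).2 (h α β))⟩

theorem pos4 (b : HilbertBasis ℕ ℂ H) (A B : H →L[ℂ] H) (hA : ∃ t, HasTr b 4 A t)
    (hB : ∃ t, HasTr b 4 B t) :
    ∃ f g : ℝ → ℂ, MemLp f 4 (volume.restrict (Set.Ioo (0:ℝ) 1)) ∧
      MemLp g 4 (volume.restrict (Set.Ioo (0:ℝ) 1)) ∧
      ∀ α β : ℂ, HasTr b 4 (α • A + β • B)
        (∫ t in Set.Ioo (0:ℝ) 1, ‖α * f t + β * g t‖ ^ (4:ℝ)) := by
  have key := Pool.Agent.Results.MP_41c25d_an.ExponentFour.result b A B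
    (by
      obtain ⟨t, h⟩ := hA
      exact ⟨t, (hasTr_four b _ _).1 h⟩)
    (by
      obtain ⟨t, h⟩ := hB
      exact ⟨t, (hasTr_four b _ _).1 h⟩)
  obtain ⟨f, g, hf, hg, h⟩ := key
  exact ⟨f, g, hf, hg, fun α β => (hasTr_four b _ _).2 (h α β)⟩

theorem pos (b : HilbertBasis ℕ ℂ H) (p : ℝ) (hp : p = 4 ∨ p = 6) (A B : H →L[ℂ] H)
    (hA : ∃ t, HasTr b p A t) (hB : ∃ t, HasTr b p B t) :
    ∃ f g : ℝ → ℂ, MemLp f (ENNReal.ofReal p) (volume.restrict (Set.Ioo (0:ℝ) 1)) ∧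
      MemLp g (ENNReal.ofReal p) (volume.restrict (Set.Ioo (0:ℝ) 1)) ∧
      ∀ α β : ℂ, HasTr b p (α • A + β • B)
        (∫ t in Set.Ioo (0:ℝ) 1, ‖α * f t + β * g t‖ ^ p) := by
  rcases hp with rfl | rfl
  · have e : ENNReal.ofReal 4 = 4 := by norm_num
    rw [e]
    exact pos4 b A B hA hB
  · have e : ENNReal.ofReal 6 = 6 := by norm_num
    rw [e]
    exact pos6 b A B hA hB

end Pool.Agent.K9h27.S6
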