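import Pool.Agent.R260.SC.Defs2
import Pool.Agent.R260.SC.TR

/-! `tr |M|^6`: the corners have a smaller one. -/

set_option autoImplicit false

open MeasureTheory Matrix Filter Topology
open scoped ComplexOrder MatrixOrder

namespace Pool.Agent.K9h27.S6

open Pool.Agent.R260.SC (corner)

variable {H : Type*} [NormedAddCommGroup H] [InnerProductSpace ℂ H] [CompleteSpace H]

/-- `‖M e‖ ^ 6 ≤ ‖M M* M e‖ ^ 2` for unit vectors. -/
theorem jensen (M : H →L[ℂ] H) (e : H) (he : ‖e‖ = 1) :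
    ‖M e‖ ^ 6 ≤ ‖M ((ContinuousLinearMap.adjoint M) (M e))‖ ^ 2 := by
  set a := ‖M e‖ with ha
  set b' := ‖(ContinuousLinearMap.adjoint M) (M e)‖ with hb
  set c := ‖M ((ContinuousLinearMap.adjoint M) (M e))‖ with hc
  have h1 : a ^ 2 ≤ b' := by
    have e1 : inner ℂ e ((ContinuousLinearMap.adjoint M) (M e)) = ((a ^ 2 : ℝ) : ℂ) := by
      rw [ContinuousLinearMap.adjoint_inner_right, inner_self_eq_norm_sq_to_K]
      norm_cast
    have e2 := norm_inner_le_norm (𝕜 := ℂ) e ((ContinuousLinearMap.adjoint M) (M e))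
    rw [e1, he, one_mul, Complex.norm_real, Real.norm_eq_abs, abs_of_nonneg (by positivity)] at e2
    exact e2
  have h2 : b' ^ 2 ≤ a * c := by
    have e1 : inner ℂ (M e) (M ((ContinuousLinearMap.adjoint M) (M e))) = ((b' ^ 2 : ℝ) : ℂ) := by
      rw [← ContinuousLinearMap.adjoint_inner_left, inner_self_eq_norm_sq_to_K]
      norm_cast
    have e2 := norm_inner_le_norm (𝕜 := ℂ) (M e) (M ((ContinuousLinearMap.adjoint M) (M e)))
    rw [e1, Complex.norm_real, Real.norm_eq_abs, abs_of_nonneg (by positivity)] at e2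
    exact e2
  have ha0 : 0 ≤ a := norm_nonneg _
  have hb0 : 0 ≤ b' := norm_nonneg _
  have hc0 : 0 ≤ c := norm_nonneg _
  have h3 : a ^ 4 ≤ a * c := by
    calc a ^ 4 = (a ^ 2) ^ 2 := by ring
      _ ≤ b' ^ 2 := pow_le_pow_left₀ (by positivity) h1 2
      _ ≤ a * c := h2
  rcases eq_or_lt_of_le ha0 with h0 | h0
  · rw [← h0]
    calc (0 : ℝ) ^ 6 = 0 := by norm_num
      _ ≤ c ^ 2 := by positivity
  · have h4 : a ^ 3 ≤ c := by
      have : a * a ^ 3 ≤ a * c := by
        calc a * a ^ 3 = a ^ 4 := by ring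
          _ ≤ a * c := h3
      exact le_of_mul_le_mul_left this h0
    calc a ^ 6 = (a ^ 3) ^ 2 := by ring
      _ ≤ c ^ 2 := pow_le_pow_left₀ (by positivity) h4 2

/-- the operator from the coordinates -/
noncomputable def Jv (b : HilbertBasis ℕ ℂ H) (n : ℕ) (v : Fin n → ℂ) : H :=
  ∑ i, v i • b (i : ℕ)

theorem Jv_norm (b : HilbertBasis ℕ ℂ H) (n : ℕ) (v : Fin n → ℂ) :
    inner ℂ (Jv b n v) (Jv b n v) = ∑ i, star (v i) * v i := by
  have hb : Orthonormal ℂ (fun k : Fin n => b (k : ℕ)) :=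
    b.orthonormal.comp (fun k : Fin n => (k : ℕ)) Fin.val_injective
  unfold Jv
  rw [hb.inner_sum]
  rfl

theorem iu6 (b : HilbertBasis ℕ ℂ H) (M : H →L[ℂ] H) (n : ℕ) :
    ((((corner b M n)ᴴ * corner b M n) ^ 3).trace).re ≤
      ∑ i ∈ Finset.range n, ‖M ((ContinuousLinearMap.adjoint M) (M (b i)))‖ ^ 2 := by
  classical
  set C := corner b M n with hC
  have hX := isHermitian_conjTranspose_mul_self C
  have hb : Orthonormal ℂ (fun k : Fin n => b (k : ℕ)) :=
    b.orthonormal.comp (fun k : Fin n => (k : ℕ)) Fin.val_injective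
  -- the trace
  have htr : (((Cᴴ * C) ^ 3).trace).re = ∑ j, hX.eigenvalues j ^ 3 := by
    have h1 := Pool.Agent.R260.SC.tr n 3 C
    rw [← h1, Complex.ofReal_re]
    unfold Pool.Agent.R260.SC.sch
    refine Finset.sum_congr rfl fun i _ => ?_
    have e1 : (2 * ((3 : ℕ) : ℝ)) / 2 = ((3 : ℕ) : ℝ) := by ring
    rw [e1, Real.rpow_natCast]
  rw [htr]
  -- the eigenvectors
  set v : Fin n → Fin n → ℂ := fun j => (hX.eigenvectorBasis j).ofLp with hv
  have hunit : ∀ j, ∑ i, star (v j i) * v j i = 1 := by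
    intro j
    have h1 := hX.eigenvectorBasis.orthonormal.1 j
    have h2 : inner ℂ (hX.eigenvectorBasis j) (hX.eigenvectorBasis j) = (1 : ℂ) := by
      rw [inner_self_eq_norm_sq_to_K, h1]
      norm_num
    rw [← h2, PiLp.inner_apply]
    refine Finset.sum_congr rfl fun i _ => ?_
    rw [RCLike.inner_apply, mul_comm]
    rfl
  have hJ : ∀ j, ‖Jv b n (v j)‖ = 1 := by
    intro j
    have h1 := Jv_norm b n (v j)
    rw [hunit j, inner_self_eq_norm_sq_to_K] at h1
    have h3 : ((‖Jv b n (v j)‖ ^ 2 : ℝ) : ℂ) = 1 := by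
      rw [Complex.ofReal_pow]
      exact h1
    have h2 : ‖Jv b n (v j)‖ ^ 2 = 1 := by exact_mod_cast h3
    nlinarith [norm_nonneg (Jv b n (v j)), sq_nonneg (‖Jv b n (v j)‖ - 1)]
  have hCv : ∀ w : Fin n → ℂ, ∀ k, (C *ᵥ w) k = inner ℂ (b (k : ℕ)) (M (Jv b n w)) := by
    intro w k
    unfold Jv
    rw [map_sum, inner_sum, Matrix.mulVec, dotProduct]
    refine Finset.sum_congr rfl fun i _ => ?_
    rw [map_smul, inner_smul_right, hC]
    unfold corner
    ring
  have hev : ∀ j, hX.eigenvalues j = ∑ k, ‖(C *ᵥ (v j)) k‖ ^ 2 := by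
    intro j
    rw [hX.eigenvalues_eq j]
    have h1 : star (v j) ⬝ᵥ ((Cᴴ * C) *ᵥ (v j)) = star (C *ᵥ (v j)) ⬝ᵥ (C *ᵥ (v j)) := by
      rw [← Matrix.mulVec_mulVec, Matrix.dotProduct_mulVec, Matrix.star_mulVec]
    change RCLike.re (star (v j) ⬝ᵥ ((Cᴴ * C) *ᵥ (v j))) = _
    rw [h1, dotProduct, map_sum]
    refine Finset.sum_congr rfl fun k _ => ?_
    rw [Pi.star_apply]
    have h2 : star ((C *ᵥ v j) k) * (C *ᵥ v j) k = ((‖(C *ᵥ v j) k‖ ^ 2 : ℝ) : ℂ) := by
      rw [Complex.star_def, Complex.conj_mul']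
      norm_cast
    rw [h2]
    exact Complex.ofReal_re _
  have hev0 : ∀ j, 0 ≤ hX.eigenvalues j := fun j => by
    rw [hev j]
    exact Finset.sum_nonneg fun k _ => by positivity
  have hle : ∀ j, hX.eigenvalues j ≤ ‖M (Jv b n (v j))‖ ^ 2 := by
    intro j
    rw [hev j]
    have h1 := hb.sum_inner_products_le (M (Jv b n (v j))) (s := Finset.univ)
    refine le_trans (le_of_eq ?_) h1
    refine Finset.sum_congr rfl fun k _ => ?_
    rw [hCv]
  have hle2 : ∀ j, hX.eigenvalues j ^ 3 ≤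
      ‖M ((ContinuousLinearMap.adjoint M) (M (Jv b n (v j))))‖ ^ 2 := by
    intro j
    calc hX.eigenvalues j ^ 3 ≤ (‖M (Jv b n (v j))‖ ^ 2) ^ 3 :=
          pow_le_pow_left₀ (hev0 j) (hle j) 3
      _ = ‖M (Jv b n (v j))‖ ^ 6 := by ring
      _ ≤ _ := jensen M _ (hJ j)
  refine (Finset.sum_le_sum fun j _ => hle2 j).trans (le_of_eq ?_)
  -- independence of the basis
  set s : Fin n → H := fun i => M ((ContinuousLinearMap.adjoint M) (M (b (i : ℕ)))) with hs
  have hS : ∀ w : Fin n → ℂ, M ((ContinuousLinearMap.adjoint M) (M (Jv b n w))) =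
      ∑ i, w i • s i := by
    intro w
    unfold Jv
    simp only [map_sum, map_smul, hs]
  have hcol : ∀ i l : Fin n, ∑ j, star (v j i) * v j l = if i = l then 1 else 0 := by
    intro i l
    have hU : (hX.eigenvectorUnitary : Matrix (Fin n) (Fin n) ℂ) *
        star (hX.eigenvectorUnitary : Matrix (Fin n) (Fin n) ℂ) = 1 :=
      Unitary.coe_mul_star_self _
    have h1 := congrFun (congrFun hU l) i
    rw [Matrix.mul_apply, Matrix.one_apply] at h1
    have h0 : (if i = l then (1 : ℂ) else 0) = if l = i then 1 else 0 := by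
      simp only [eq_comm]
    rw [h0, ← h1]
    refine Finset.sum_congr rfl fun j _ => ?_
    rw [Matrix.star_apply, mul_comm]
    rfl
  have hfin : ((∑ j, ‖M ((ContinuousLinearMap.adjoint M) (M (Jv b n (v j))))‖ ^ 2 : ℝ) : ℂ) =
      ((∑ i, ‖s i‖ ^ 2 : ℝ) : ℂ) := by
    have e1 : ∀ x : H, ((‖x‖ ^ 2 : ℝ) : ℂ) = inner ℂ x x := by
      intro x
      rw [inner_self_eq_norm_sq_to_K]
      norm_cast
    rw [Complex.ofReal_sum, Complex.ofReal_sum]
    simp only [e1, hS]
    have e2 : ∀ j, inner ℂ (∑ i, v j i • s i) (∑ i, v j i • s i) =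
        ∑ i, ∑ l, (star (v j i) * v j l) * inner ℂ (s i) (s l) := by
      intro j
      rw [sum_inner]
      refine Finset.sum_congr rfl fun i _ => ?_
      rw [inner_sum]
      refine Finset.sum_congr rfl fun l _ => ?_
      rw [inner_smul_left, inner_smul_right, mul_assoc]
      rfl
    simp only [e2]
    rw [Finset.sum_comm]
    refine Finset.sum_congr rfl fun i _ => ?_
    rw [Finset.sum_comm]
    have e3 : ∀ l, ∑ j, (star (v j i) * v j l) * inner ℂ (s i) (s l) =
        if i = l then inner ℂ (s i) (s l) else 0 := by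
      intro l
      rw [← Finset.sum_mul, hcol i l]
      split_ifs <;> simp
    simp only [e3]
    rw [Finset.sum_ite_eq Finset.univ i]
    simp
  have hfin' : ∑ j, ‖M ((ContinuousLinearMap.adjoint M) (M (Jv b n (v j))))‖ ^ 2 =
      ∑ i, ‖s i‖ ^ 2 := by exact_mod_cast hfin
  rw [hfin', Finset.sum_range]

end Pool.Agent.K9h27.S6
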