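import Pool.Agent.K9h27.S6.Lim
import Pool.Agent.K9h27.S6.Cara
import Pool.Agent.R260.SC.NUSF

/-! Pairs of operators in `S_6`: from matrices to operators. -/

set_option autoImplicit false

open MeasureTheory Matrix Filter Topology

namespace Pool.Agent.K9h27.S6

open Pool.Agent.R260.SC (corner)

/-- the step function -/
noncomputable def stp (m : ℕ) (f : Fin m → ℂ) (n : ℕ) : ℂ :=
  if h : n < m then (((m : ℝ) ^ (1 / 6 : ℝ) : ℝ) : ℂ) * f ⟨n, h⟩ else 0

theorem stp_memLp (m : ℕ) (f : Fin m → ℂ) :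
    MemLp (fun t : ℝ => stp m f ⌊(m : ℝ) * t⌋₊) 6 (volume.restrict (Set.Ioo (0:ℝ) 1)) := by
  have : IsFiniteMeasure (volume.restrict (Set.Ioo (0:ℝ) 1)) := ⟨by simp⟩
  refine MemLp.of_bound ?_ (∑ i : Fin m, ‖(((m : ℝ) ^ (1 / 6 : ℝ) : ℝ) : ℂ) * f i‖) ?_
  · apply Measurable.aestronglyMeasurable
    exact (measurable_from_nat (f := stp m f)).comp
      (Nat.measurable_floor.comp (measurable_const_mul (m : ℝ)))
  · refine Filter.Eventually.of_forall ?_
    intro t
    unfold stp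
    split_ifs with h
    · exact Finset.single_le_sum
        (f := fun i : Fin m => ‖(((m : ℝ) ^ (1 / 6 : ℝ) : ℝ) : ℂ) * f i‖)
        (fun i _ => norm_nonneg _) (Finset.mem_univ (⟨_, h⟩ : Fin m))
    · rw [norm_zero]
      exact Finset.sum_nonneg (fun i _ => norm_nonneg _)

/-- finitely many vectors give simple functions on `(0,1)` -/
theorem sf6 (m : ℕ) (f g : Fin m → ℂ) : ∃ F G : ℝ → ℂ,
    MemLp F 6 (volume.restrict (Set.Ioo (0:ℝ) 1)) ∧
    MemLp G 6 (volume.restrict (Set.Ioo (0:ℝ) 1)) ∧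
    ∀ α β : ℂ, ∫ t in Set.Ioo (0:ℝ) 1, ‖α * F t + β * G t‖ ^ (6:ℝ) =
      ∑ i, ‖α * f i + β * g i‖ ^ 6 := by
  refine ⟨fun t => stp m f ⌊(m : ℝ) * t⌋₊, fun t => stp m g ⌊(m : ℝ) * t⌋₊, stp_memLp m f,
    stp_memLp m g, ?_⟩
  intro α β
  rcases Nat.eq_zero_or_pos m with rfl | hm
  · simp [stp]
  have hm' : (0 : ℝ) < m := by exact_mod_cast hm
  have hc : ((m : ℝ) ^ (1 / 6 : ℝ)) ^ 6 = m := by
    rw [← Real.rpow_natCast, ← Real.rpow_mul hm'.le]
    norm_num
  have hc0 : 0 ≤ (m : ℝ) ^ (1 / 6 : ℝ) := by positivity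
  have h1 : ∀ z : ℝ, z ^ (6 : ℝ) = z ^ 6 := by
    intro z
    rw [← Real.rpow_natCast]
    norm_num
  simp only [h1]
  rw [Pool.Agent.R260.SC.NUSF.int_floor m hm (fun n => ‖α * stp m f n + β * stp m g n‖ ^ 6)]
  rw [Finset.sum_range, Finset.sum_div]
  apply Finset.sum_congr rfl
  intro i _
  have h2 : α * stp m f i + β * stp m g i =
      (((m : ℝ) ^ (1 / 6 : ℝ) : ℝ) : ℂ) * (α * f i + β * g i) := by
    unfold stp
    rw [dif_pos i.2, dif_pos i.2]
    simp only [Fin.eta]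
    ring
  rw [h2, norm_mul, Complex.norm_real, Real.norm_eq_abs, abs_of_nonneg hc0, mul_pow, hc]
  field_simp

variable {H : Type*} [NormedAddCommGroup H] [InnerProductSpace ℂ H] [CompleteSpace H]

omit [CompleteSpace H] in
theorem corner_lin (b : HilbertBasis ℕ ℂ H) (A B : H →L[ℂ] H) (n : ℕ) (α β : ℂ) :
    corner b (α • A + β • B) n = α • corner b A n + β • corner b B n := by
  ext i j
  simp [corner, inner_add_right, inner_smul_right]

/-- If `tr |αA+βB|^6` is a sum of terms `|αx+βy|^6` for all pairs of matrices, then all pairs of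
operators in `S_6` embed. -/
theorem six_yes
    (hfin : ∀ (n : ℕ) (A B : Matrix (Fin n) (Fin n) ℂ), ∃ (m : ℕ) (x y : Fin m → ℂ),
      ∀ α β : ℂ, (((α • A + β • B)ᴴ * (α • A + β • B)) ^ 3).trace =
        ((∑ k, ‖α * x k + β * y k‖ ^ 6 : ℝ) : ℂ))
    (b : HilbertBasis ℕ ℂ H) (A B : H →L[ℂ] H)
    (hA : Summable (fun i => ‖A ((ContinuousLinearMap.adjoint A) (A (b i)))‖ ^ 2))
    (hB : Summable (fun i => ‖B ((ContinuousLinearMap.adjoint B) (B (b i)))‖ ^ 2)) :
    ∃ f g : ℝ → ℂ, MemLp f 6 (volume.restrict (Set.Ioo (0:ℝ) 1)) ∧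
      MemLp g 6 (volume.restrict (Set.Ioo (0:ℝ) 1)) ∧
      ∀ α β : ℂ, HasSum (fun i => ‖(α • A + β • B)
          ((ContinuousLinearMap.adjoint (α • A + β • B)) ((α • A + β • B) (b i)))‖ ^ 2)
        (∫ t in Set.Ioo (0:ℝ) 1, ‖α * f t + β * g t‖ ^ (6:ℝ)) := by
  set N : ℕ → ℂ → ℂ → ℝ := fun n α β => T6 b (α • A + β • B) n with hN
  have h1 : ∀ n, ∃ (m : ℕ) (x y : Fin m → ℂ), ∀ α β : ℂ,
      N n α β = ∑ k, ‖α * x k + β * y k‖ ^ 6 := by
    intro n
    obtain ⟨m, x, y, h⟩ := hfin n (corner b A n) (corner b B n)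
    refine ⟨m, x, y, fun α β => ?_⟩
    have h2 := h α β
    rw [← corner_lin] at h2
    rw [hN]
    simp only [T6]
    rw [h2, Complex.ofReal_re]
  have hbd : ∀ (M : H →L[ℂ] H),
      Summable (fun i => ‖M ((ContinuousLinearMap.adjoint M) (M (b i)))‖ ^ 2) → ∀ n,
      T6 b M n ≤ ∑' i, ‖M ((ContinuousLinearMap.adjoint M) (M (b i)))‖ ^ 2 := by
    intro M hM n
    exact (iu6 b M n).trans (hM.sum_le_tsum _ fun i _ => by positivity)
  obtain ⟨m, x, y, φ, hφ, hlim⟩ := limit N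
    (max (∑' i, ‖A ((ContinuousLinearMap.adjoint A) (A (b i)))‖ ^ 2)
      (∑' i, ‖B ((ContinuousLinearMap.adjoint B) (B (b i)))‖ ^ 2)) h1 (by
    intro n
    constructor
    · apply le_max_of_le_left
      have := hbd A hA n
      rw [hN]
      simpa only [one_smul, zero_smul, add_zero] using this
    · apply le_max_of_le_right
      have := hbd B hB n
      rw [hN]
      simpa only [one_smul, zero_smul, zero_add] using this)
  obtain ⟨F, G, hF, hG, hint⟩ := sf6 m x y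
  refine ⟨F, G, hF, hG, fun α β => ?_⟩
  rw [hint]
  exact hasSum_of_tendsto b (α • A + β • B) hφ (hlim α β)

/-- the same with `tr (M* M)^3 = ∑ ⟨b_i, (M* M)^3 b_i⟩` -/
theorem hasTrSix_iff (b : HilbertBasis ℕ ℂ H) (M : H →L[ℂ] H) (t : ℝ) :
    HasSum (fun i => (inner ℂ (b i)
      (ContinuousLinearMap.adjoint M (M (ContinuousLinearMap.adjoint M (M
        (ContinuousLinearMap.adjoint M (M (b i)))))))).re) t ↔
      HasSum (fun i => ‖M ((ContinuousLinearMap.adjoint M) (M (b i)))‖ ^ 2) t := by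
  have : (fun i => (inner ℂ (b i)
      (ContinuousLinearMap.adjoint M (M (ContinuousLinearMap.adjoint M (M
        (ContinuousLinearMap.adjoint M (M (b i)))))))).re) =
      fun i => ‖M ((ContinuousLinearMap.adjoint M) (M (b i)))‖ ^ 2 := by
    ext i
    rw [ContinuousLinearMap.adjoint_inner_right, ← ContinuousLinearMap.adjoint_inner_left,
      ContinuousLinearMap.adjoint_inner_right, inner_self_eq_norm_sq_to_K]
    norm_cast
  rw [this]

end Pool.Agent.K9h27.S6
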